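import Pool.Agent.Q193.W.Rep

/-! Examples: several copies of the standard representation; representations of `SL₂`. -/

set_option autoImplicit false

namespace Pool.Agent.Q193.W

open Matrix MvPolynomial Filter Topology

/-- `l` copies of the standard representation of `GL_n(ℝ)`: the place `(i, c)` of `ℝ^(n l)` is the
`i`-th coordinate in the `c`-th copy. -/
noncomputable def copies (n l : ℕ) : Rep (fun _ : Fin 1 => n) (n * l) where
  rho :=
    { toFun := fun g => Matrix.of fun a b =>
        g 0 (finProdFinEquiv.symm a).1 (finProdFinEquiv.symm b).1 *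
          (if (finProdFinEquiv.symm a).2 = (finProdFinEquiv.symm b).2 then 1 else 0)
      map_one' := by
        ext a b
        simp only [of_apply]
        show (1 : Matrix (Fin n) (Fin n) ℝ) _ _ * _ = _
        rw [Matrix.one_apply, Matrix.one_apply]
        by_cases hab : a = b
        · subst hab
          simp
        · rw [if_neg hab]
          split_ifs with h1 h2
          · exact absurd (finProdFinEquiv.symm.injective (Prod.ext h1 h2)) hab
          all_goals simp
      map_mul' := by
        intro g g'
        ext a b
        simp only [of_apply]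
        rw [Matrix.mul_apply]
        simp only [of_apply]
        rw [← Equiv.sum_comp finProdFinEquiv, Fintype.sum_prod_type]
        simp only [Equiv.symm_apply_apply]
        have e : ∀ x : Fin n, (∑ y : Fin l, g 0 (finProdFinEquiv.symm a).1 x *
            (if (finProdFinEquiv.symm a).2 = y then (1 : ℝ) else 0) *
            (g' 0 x (finProdFinEquiv.symm b).1 *
            (if y = (finProdFinEquiv.symm b).2 then (1 : ℝ) else 0))) =
            g 0 (finProdFinEquiv.symm a).1 x * g' 0 x (finProdFinEquiv.symm b).1 *
            (if (finProdFinEquiv.symm a).2 = (finProdFinEquiv.symm b).2 then 1 else 0) := by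
          intro x
          rw [Finset.sum_eq_single (finProdFinEquiv.symm a).2]
          · rw [if_pos rfl]; ring
          · intro y _ hy
            rw [if_neg (Ne.symm hy)]; ring
          · intro h; exact absurd (Finset.mem_univ _) h
        simp only [e]
        rw [← Finset.sum_mul]
        rfl }
  wt := fun a _ i => if (finProdFinEquiv.symm a).1 = i then 1 else 0
  poly := by
    intro a b
    refine ⟨X ⟨0, (finProdFinEquiv.symm a).1, (finProdFinEquiv.symm b).1⟩ *
      MvPolynomial.C (if (finProdFinEquiv.symm a).2 = (finProdFinEquiv.symm b).2 then 1 else 0),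
      fun g => ?_⟩
    rw [map_mul, eval_X, eval_C]
    rfl
  transp := by
    intro g
    ext a b
    show (g 0)ᵀ _ _ * _ = g 0 _ _ * _
    rw [transpose_apply]
    congr 1
    simp only [eq_comm]
  diag := by
    intro d
    ext a b
    show (diagonal (d 0)) _ _ * _ = _
    rw [diagonal_apply, diagonal_apply]
    by_cases hab : a = b
    · subst hab
      simp only [if_true, mul_one, Finset.univ_unique, Fin.default_eq_zero, Fin.isValue,
        Finset.prod_singleton]
      rw [Finset.prod_eq_single (finProdFinEquiv.symm a).1]
      · simp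
      · intro i _ hi
        rw [if_neg (Ne.symm hi), pow_zero]
      · intro h; exact absurd (Finset.mem_univ _) h
    · rw [if_neg hab]
      split_ifs with h1 h2
      · exact absurd (finProdFinEquiv.symm.injective (Prod.ext h1 h2)) hab
      all_goals simp

lemma exists_pos_of_sum {n : ℕ} {h : Fin n → ℝ} (h0 : ∑ i, h i = 0) (h1 : h ≠ 0) :
    ∃ i, 0 < h i := by
  by_contra hno
  push Not at hno
  apply h1
  funext i
  have := (Finset.sum_eq_zero_iff_of_nonpos fun i _ => hno i).1 h0 i (Finset.mem_univ i)
  exact this

/-- **At least `n` copies of the standard representation of `GL_n` satisfy the criterion.** -/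
theorem copies_many {n l : ℕ} (hnl : n ≤ l) : (copies n l).Many := by
  intro h h0 h1
  obtain ⟨i₀, hi₀⟩ : ∃ i, 0 < h 0 i := by
    refine exists_pos_of_sum (h0 0) fun h2 => h1 ?_
    funext s
    rw [Subsingleton.elim s 0, h2]
    rfl
  have hn : 2 ≤ n := by
    by_contra hlt
    push Not at hlt
    have h2 : ∑ i, h 0 i = h 0 i₀ := by
      refine Finset.sum_eq_single i₀ (fun j _ hj => ?_) fun h => absurd (Finset.mem_univ _) h
      exfalso
      apply hj
      apply Fin.ext
      have h3 : (j : ℕ) < n := j.2
      have h4 : (i₀ : ℕ) < n := i₀.2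
      omega
    rw [h0 0] at h2
    linarith
  have hpw : ∀ (a : Fin (n * l)) (v : Vecs (fun _ : Fin 1 => n)),
      (copies n l).pw a v = v 0 (finProdFinEquiv.symm a).1 := by
    intro a v
    unfold Rep.pw
    simp only [copies, Finset.univ_unique, Fin.default_eq_zero, Fin.isValue, Finset.sum_singleton]
    rw [Finset.sum_eq_single (finProdFinEquiv.symm a).1]
    · simp
    · intro i _ hi
      rw [if_neg (Ne.symm hi)]; simp
    · intro h; exact absurd (Finset.mem_univ _) h
  refine ⟨fun _ i => if i = i₀ then (n : ℝ) - 1 else -1, ?_, ?_, ?_, ?_⟩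
  · intro s
    rw [Finset.sum_ite, Finset.sum_const, Finset.sum_const, Finset.filter_eq']
    simp only [Finset.mem_univ, if_true, Finset.card_singleton, one_smul]
    rw [Finset.filter_ne', Finset.card_erase_of_mem (Finset.mem_univ _), Finset.card_univ,
      Fintype.card_fin, nsmul_eq_mul, Nat.cast_sub (by omega)]
    push_cast
    ring
  · intro h2
    have h3 := congrFun (congrFun h2 0) i₀
    simp only [if_true, Pi.zero_apply] at h3
    have h4 : (2 : ℝ) ≤ n := by exact_mod_cast hn
    linarith
  · intro a ha
    rw [Rep.mem_posW, hpw] at ha ⊢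
    simp only at ha
    split_ifs at ha with h2
    · rw [h2]; exact hi₀
    · norm_num at ha
  · have c1 : (posR (k := fun _ : Fin 1 => n)
        (fun _ i => if i = i₀ then (n : ℝ) - 1 else -1)).card ≤ n - 1 := by
      have h2 : posR (k := fun _ : Fin 1 => n)
          (fun _ i => if i = i₀ then (n : ℝ) - 1 else -1) ⊆
          (Finset.univ.erase i₀).image fun j => (⟨0, i₀, j⟩ : Ix fun _ : Fin 1 => n) := by
        rintro ⟨s, i, j⟩ hx
        rw [mem_posR] at hx
        simp only at hx
        rw [Subsingleton.elim s 0]
        rw [Finset.mem_image]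
        have h4 : (2 : ℝ) ≤ n := by exact_mod_cast hn
        by_cases hi : i = i₀
        · by_cases hj : j = i₀
          · rw [hi, hj] at hx; exact absurd hx (lt_irrefl _)
          · refine ⟨j, Finset.mem_erase.2 ⟨hj, Finset.mem_univ _⟩, ?_⟩
            rw [hi]
        · rw [if_neg hi] at hx
          split_ifs at hx
          · linarith
          · exact absurd hx (lt_irrefl _)
      refine (Finset.card_le_card h2).trans (Finset.card_image_le.trans ?_)
      rw [Finset.card_erase_of_mem (Finset.mem_univ _), Finset.card_univ, Fintype.card_fin]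
    have c2 : l ≤ ((copies n l).posW (fun _ i => if i = i₀ then (n : ℝ) - 1 else -1)).card := by
      have h2 : (Finset.univ : Finset (Fin l)).image (fun c => finProdFinEquiv (i₀, c)) ⊆
          (copies n l).posW (fun _ i => if i = i₀ then (n : ℝ) - 1 else -1) := by
        intro a ha
        rw [Finset.mem_image] at ha
        obtain ⟨c, -, rfl⟩ := ha
        rw [Rep.mem_posW, hpw, Equiv.symm_apply_apply]
        simp only [if_true]
        have h4 : (2 : ℝ) ≤ n := by exact_mod_cast hn
        linarith
      refine le_trans ?_ (Finset.card_le_card h2)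
      rw [Finset.card_image_of_injective _ ?_, Finset.card_univ, Fintype.card_fin]
      intro c c' hc
      have := finProdFinEquiv.injective hc
      simpa using this
    have c3 : n - 1 < l := by omega
    exact lt_of_le_of_lt c1 (lt_of_lt_of_le c3 c2)

/-- **Representations of `GL₂`**: the criterion only asks for two positive weights on each side. -/
theorem two_many {m : ℕ} (R : Rep (fun _ : Fin 1 => 2) m)
    (h1 : 2 ≤ (Finset.univ.filter fun a : Fin m => R.wt a 0 1 < R.wt a 0 0).card)
    (h2 : 2 ≤ (Finset.univ.filter fun a : Fin m => R.wt a 0 0 < R.wt a 0 1).card) : R.Many := by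
  intro h h0 hne
  refine ⟨h, h0, hne, Finset.Subset.refl _, ?_⟩
  have hs : h 0 1 = -h 0 0 := by
    have := h0 0
    rw [Fin.sum_univ_two] at this
    linarith
  have hz : h 0 0 ≠ 0 := by
    intro hz
    apply hne
    funext s i
    rw [Subsingleton.elim s 0]
    fin_cases i
    · exact hz
    · show h 0 1 = 0
      rw [hs, hz, neg_zero]
  have hpw : ∀ a, R.pw a h = ((R.wt a 0 0 : ℝ) - R.wt a 0 1) * h 0 0 := by
    intro a
    unfold Rep.pw
    simp only [Finset.univ_unique, Fin.default_eq_zero, Fin.isValue, Finset.sum_singleton]
    rw [Fin.sum_univ_two, hs]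
    ring
  have c1 : (posR h).card ≤ 1 := by
    rw [Finset.card_le_one]
    rintro ⟨s, i, j⟩ hx ⟨s', i', j'⟩ hy
    rw [mem_posR] at hx hy
    simp only at hx hy
    obtain rfl := Subsingleton.elim s 0
    obtain rfl := Subsingleton.elim s' 0
    rcases lt_or_gt_of_ne hz with hz | hz
    · have hx' : i = 1 ∧ j = 0 := by
        fin_cases i <;> fin_cases j <;> simp at hx ⊢ <;> linarith
      have hy' : i' = 1 ∧ j' = 0 := by
        fin_cases i' <;> fin_cases j' <;> simp at hy ⊢ <;> linarith
      rw [hx'.1, hx'.2, hy'.1, hy'.2]
    · have hx' : i = 0 ∧ j = 1 := by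
        fin_cases i <;> fin_cases j <;> simp at hx ⊢ <;> linarith
      have hy' : i' = 0 ∧ j' = 1 := by
        fin_cases i' <;> fin_cases j' <;> simp at hy ⊢ <;> linarith
      rw [hx'.1, hx'.2, hy'.1, hy'.2]
  have c2 : 2 ≤ (R.posW h).card := by
    rcases lt_or_gt_of_ne hz with hz | hz
    · refine h2.trans (Finset.card_le_card fun a ha => ?_)
      rw [Rep.mem_posW, hpw]
      have h3 : (R.wt a 0 0 : ℝ) < R.wt a 0 1 := by
        exact_mod_cast (Finset.mem_filter.1 ha).2
      nlinarith
    · refine h1.trans (Finset.card_le_card fun a ha => ?_)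
      rw [Rep.mem_posW, hpw]
      have h3 : (R.wt a 0 1 : ℝ) < R.wt a 0 0 := by
        exact_mod_cast (Finset.mem_filter.1 ha).2
      nlinarith
  omega

end Pool.Agent.Q193.W
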