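import Pool.Agent.Q193.W.Stab
import Pool.Agent.Y520.Stmt

/-! The totally geodesic family of inner products of a representation, and the main theorem. -/

set_option autoImplicit false

namespace Pool.Agent.Q193.W

open Matrix MvPolynomial Filter Topology
open Pool.Agent.Y520.Mat Pool.Agent.Y520.SStmt

variable {r : ℕ} {k : Fin r → ℕ} {m : ℕ} (R : Rep k m)

lemma pos_one : Pos (1 : Mats k) := fun _ => ⟨PosDef.one, det_one⟩

/-- the inverse matrices -/
noncomputable def inv (P : Mats k) : Mats k := fun s => (P s)⁻¹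

lemma Pos.mul_inv {P : Mats k} (hP : Pos P) : P * inv P = 1 :=
  funext fun s => Pool.Agent.Y520.Mat.mul_inv (hP s).1

lemma Pos.inv_mul {P : Mats k} (hP : Pos P) : inv P * P = 1 :=
  funext fun s => Pool.Agent.Y520.Mat.inv_mul (hP s).1

lemma Pos.inv {P : Mats k} (hP : Pos P) : Pos (inv P) := by
  intro s
  refine ⟨(hP s).1.inv, ?_⟩
  show ((P s)⁻¹).det = 1
  rw [det_nonsing_inv, (hP s).2, Ring.inverse_one]

lemma Rep.rho_inv {P : Mats k} (hP : Pos P) : (R.rho P)⁻¹ = R.rho (W.inv P) := by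
  refine Matrix.inv_eq_right_inv ?_
  rw [← map_mul, hP.mul_inv, map_one]

lemma conj_tr {P g : Mats k} (hP : Pos P) (hg : ∀ s, |(g s).det| = 1) : Pos (g * P * tr g) := by
  intro s
  show (g s * P s * (g s)ᵀ).PosDef ∧ (g s * P s * (g s)ᵀ).det = 1
  have hu : (g s).det * (g s).det = 1 := by
    rcases abs_eq (zero_le_one) |>.1 (hg s) with h | h <;> rw [h] <;> norm_num
  refine ⟨pd_conj (hP s).1 ?_, ?_⟩
  · rw [isUnit_iff_isUnit_det]
    exact IsUnit.of_mul_eq_one _ hu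
  · rw [det_mul, det_mul, det_transpose, (hP s).2, mul_one, hu]

lemma Pos.refl {P Q : Mats k} (hP : Pos P) (hQ : Pos Q) : Pos (Q * W.inv P * Q) := by
  have h1 : Q = tr Q := by
    funext s
    exact (symd (hQ s).1).symm
  have h2 := conj_tr (g := Q) hP.inv (fun s => by rw [(hQ s).2, abs_one])
  rwa [← h1] at h2

lemma sqrt_one {n : ℕ} {A : Mt n} (hA : A.PosDef) (hd : A.det = 1) :
    ∃ B : Mt n, B.PosDef ∧ B.det = 1 ∧ B * B = A := by
  obtain ⟨U, h, h1, h2, h3, h4⟩ := spec_one hA hd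
  have hB : (U * diagonal (fun i => Real.exp (h i / 2)) * Uᵀ).PosDef := by
    refine pd_conj (PosDef.diagonal fun i => Real.exp_pos _) ?_
    exact IsUnit.of_mul_eq_one _ h1
  have hBB : U * diagonal (fun i => Real.exp (h i / 2)) * Uᵀ *
      (U * diagonal (fun i => Real.exp (h i / 2)) * Uᵀ) = A := by
    calc U * diagonal (fun i => Real.exp (h i / 2)) * Uᵀ *
        (U * diagonal (fun i => Real.exp (h i / 2)) * Uᵀ) =
        U * (diagonal (fun i => Real.exp (h i / 2)) * (Uᵀ * U) *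
        diagonal (fun i => Real.exp (h i / 2))) * Uᵀ := by simp only [Matrix.mul_assoc]
      _ = A := by
        rw [h2, Matrix.mul_one, diagonal_mul_diagonal, h3]
        congr 3
        funext i
        rw [← Real.exp_add]
        congr 1
        ring
  refine ⟨_, hB, ?_, hBB⟩
  have h5 := congrArg Matrix.det hBB
  rw [det_mul, hd] at h5
  have h6 := hB.det_pos
  nlinarith

lemma Pos.mid {P Q : Mats k} (hP : Pos P) (hQ : Pos Q) :
    ∃ G : Mats k, Pos G ∧ G * W.inv P * G = Q := by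
  have key : ∀ s, ∃ G : Mt (k s), G.PosDef ∧ G.det = 1 ∧ G * (P s)⁻¹ * G = Q s := by
    intro s
    obtain ⟨B, hB, hBd, hBB⟩ := sqrt_one (hP s).1 (hP s).2
    have hW : (B⁻¹ * Q s * B⁻¹).PosDef := by
      have := pd_conj (hQ s).1 (B := B⁻¹) (by
        rw [isUnit_iff_isUnit_det]
        exact det_unit hB.inv)
      rwa [symd hB.inv] at this
    have hBi : (B⁻¹).det = 1 := by rw [det_nonsing_inv, hBd, Ring.inverse_one]
    have hWd : (B⁻¹ * Q s * B⁻¹).det = 1 := by
      rw [det_mul, det_mul, hBi, (hQ s).2]; norm_num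
    obtain ⟨V, hV, hVd, hVV⟩ := sqrt_one hW hWd
    have hb1 : B * B⁻¹ = 1 := Pool.Agent.Y520.Mat.mul_inv hB
    have hb2 : B⁻¹ * B = 1 := Pool.Agent.Y520.Mat.inv_mul hB
    refine ⟨B * V * B, ?_, ?_, ?_⟩
    · have := pd_conj hV (B := B) (by
        rw [isUnit_iff_isUnit_det]
        exact det_unit hB)
      rwa [symd hB] at this
    · rw [det_mul, det_mul, hBd, hVd]; norm_num
    · have hPi : (P s)⁻¹ = B⁻¹ * B⁻¹ := by
        rw [← hBB, Matrix.mul_inv_rev]
      rw [hPi]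
      calc B * V * B * (B⁻¹ * B⁻¹) * (B * V * B) =
          B * V * (B * B⁻¹) * (B⁻¹ * B) * V * B := by simp only [Matrix.mul_assoc]
        _ = B * (V * V) * B := by
          rw [hb1, hb2, Matrix.mul_one, Matrix.mul_one]
          simp only [Matrix.mul_assoc]
        _ = (B * B⁻¹) * Q s * (B⁻¹ * B) := by
          rw [hVV]
          simp only [Matrix.mul_assoc]
        _ = Q s := by rw [hb1, hb2, Matrix.one_mul, Matrix.mul_one]
  choose G h1 h2 h3 using key
  exact ⟨G, fun s => ⟨h1 s, h2 s⟩, funext fun s => h3 s⟩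

/-- the family of inner products -/
def Rep.XX (C : Mt m) : Set (Mt m) := {S | ∃ P : Mats k, Pos P ∧ S = C * R.rho P * Cᵀ}

lemma Rep.rho_pos {P : Mats k} (hP : Pos P) : (R.rho P).PosDef := by
  obtain ⟨U, h, hU, -, rfl⟩ := spec hP
  rw [map_mul, map_mul, R.transp, R.rho_exp]
  refine pd_conj (PosDef.diagonal fun i => Real.exp_pos _) ?_
  refine IsUnit.of_mul_eq_one (R.rho (tr U)) ?_
  rw [← map_mul, hU.mul_tr, map_one]

variable {R} {C : Mt m} (hC : C.det ≠ 0)

include hC in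
lemma unitC : IsUnit C := by
  rw [isUnit_iff_isUnit_det]
  exact isUnit_iff_ne_zero.2 hC

include hC in
lemma XX_pos {S : Mt m} (hS : S ∈ R.XX C) : S.PosDef := by
  obtain ⟨P, hP, rfl⟩ := hS
  exact pd_conj (R.rho_pos hP) (unitC hC)

include hC in
lemma CC : C * C⁻¹ = 1 := mul_nonsing_inv _ (isUnit_iff_ne_zero.2 hC)

include hC in
lemma CC' : C⁻¹ * C = 1 := nonsing_inv_mul _ (isUnit_iff_ne_zero.2 hC)

lemma XX_inv {P : Mats k} (hP : Pos P) :
    (C * R.rho P * Cᵀ)⁻¹ = (C⁻¹)ᵀ * R.rho (W.inv P) * C⁻¹ := by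
  rw [Matrix.mul_inv_rev, Matrix.mul_inv_rev, R.rho_inv hP, transpose_nonsing_inv,
    Matrix.mul_assoc]

include hC in
lemma XX_refl {P Q : Mats k} (hP : Pos P) (T : Mats k) :
    C * R.rho Q * Cᵀ * (C * R.rho P * Cᵀ)⁻¹ * (C * R.rho T * Cᵀ) =
      C * R.rho (Q * W.inv P * T) * Cᵀ := by
  rw [XX_inv hP, map_mul, map_mul]
  have h1 : Cᵀ * (C⁻¹)ᵀ = 1 := by
    rw [← transpose_mul, CC' hC, transpose_one]
  calc C * R.rho Q * Cᵀ * ((C⁻¹)ᵀ * R.rho (W.inv P) * C⁻¹) * (C * R.rho T * Cᵀ) =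
      C * R.rho Q * (Cᵀ * (C⁻¹)ᵀ) * R.rho (W.inv P) * (C⁻¹ * C) * R.rho T * Cᵀ := by
        simp only [Matrix.mul_assoc]
    _ = _ := by
      rw [h1, CC' hC, Matrix.mul_one, Matrix.mul_one]
      simp only [Matrix.mul_assoc]

/-- bounded families are compact -/
lemma isCompact_box (c : ℝ) : IsCompact {P : Mats k | ∀ s i j, |P s i j| ≤ c} := by
  have h1 : IsCompact (Set.univ.pi fun s : Fin r => Set.univ.pi fun _ : Fin (k s) =>
      Set.univ.pi fun _ : Fin (k s) => Set.Icc (-c) c) :=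
    isCompact_univ_pi fun s => isCompact_univ_pi fun i => isCompact_univ_pi fun j =>
      isCompact_Icc
  have h2 : {P : Mats k | ∀ s i j, |P s i j| ≤ c} = (Set.univ.pi fun s : Fin r =>
      Set.univ.pi fun _ : Fin (k s) => Set.univ.pi fun _ : Fin (k s) => Set.Icc (-c) c) := by
    ext P
    constructor
    · intro h s _ i _ j _
      exact abs_le.1 (h s i j)
    · intro h s i j
      exact abs_le.2 (h s trivial i trivial j trivial)
  rw [h2]
  exact h1

lemma quad_C (a : Fin m → ℝ) (P : Mats k) :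
    a ⬝ᵥ (C * R.rho P * Cᵀ) *ᵥ a = (Cᵀ *ᵥ a) ⬝ᵥ R.rho P *ᵥ (Cᵀ *ᵥ a) := by
  rw [← mulVec_mulVec, ← mulVec_mulVec, dotProduct_mulVec, ← mulVec_transpose]

lemma cont_quad (a : Fin m → ℝ) : Continuous fun S : Mt m => a ⬝ᵥ S *ᵥ a := by
  unfold Matrix.mulVec dotProduct
  refine continuous_finsetSum _ fun i _ => continuous_const.mul ?_
  refine continuous_finsetSum _ fun j _ => ?_
  exact (continuous_id.matrix_elem i j).mul continuous_const

section
variable {F : MvPolynomial (Fin m) ℝ}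
    (hF : ∀ h : Vecs k, (∀ s, ∑ i, h s i = 0) → h ≠ 0 → ∀ (g : Mats k) (v : Fin m → ℝ),
      (∀ a ∈ R.posW h, v a = 0) → eval (R.rho g *ᵥ v) F = 0)

include hC hF in
lemma XX_closed (hF0 : F ≠ 0) {S : Mt m} (hS : S ∈ closure (R.XX C)) :
    S ∈ R.XX C := by
  have hfc : FirstCountableTopology (Mt m) :=
    inferInstanceAs (FirstCountableTopology (Fin m → Fin m → ℝ))
  have hfc' : FirstCountableTopology (Mats k) :=
    inferInstanceAs (FirstCountableTopology (∀ s, Fin (k s) → Fin (k s) → ℝ))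
  have hT2 : T2Space (Mt m) := inferInstanceAs (T2Space (Fin m → Fin m → ℝ))
  obtain ⟨x, hx, hlim⟩ := mem_closure_iff_seq_limit.1 hS
  choose P hP hPx using hx
  -- a stable vector
  obtain ⟨a₀, ha₀⟩ : ∃ a, eval a F ≠ 0 := by
    by_contra hno
    push Not at hno
    exact hF0 (MvPolynomial.funext fun x => by rw [hno x, map_zero])
  set a : Fin m → ℝ := (C⁻¹)ᵀ *ᵥ a₀ with ha
  have haC : Cᵀ *ᵥ a = a₀ := by
    rw [ha, mulVec_mulVec, ← transpose_mul, CC' hC, transpose_one, one_mulVec]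
  have h1 : Tendsto (fun n => a ⬝ᵥ x n *ᵥ a) atTop (𝓝 (a ⬝ᵥ S *ᵥ a)) :=
    ((cont_quad a).tendsto S).comp hlim
  obtain ⟨K, hK⟩ := h1.bddAbove_range
  obtain ⟨c, hc⟩ := R.proper hF ha₀ K
  have h2 : ∀ n, P n ∈ {P : Mats k | ∀ s i j, |P s i j| ≤ c} := by
    intro n
    refine hc (P n) (hP n) ?_
    rw [← haC, ← quad_C, ← hPx n]
    exact hK ⟨n, rfl⟩
  obtain ⟨P₀, -, φ, hφ, hPlim⟩ := (isCompact_box c).tendsto_subseq h2
  have h3 : Tendsto (fun n => x (φ n)) atTop (𝓝 (C * R.rho P₀ * Cᵀ)) := by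
    have h4 : Continuous fun P : Mats k => C * R.rho P * Cᵀ :=
      (continuous_const.matrix_mul R.cont).matrix_mul continuous_const
    refine ((h4.tendsto P₀).comp hPlim).congr fun n => ?_
    exact (hPx (φ n)).symm
  have h5 : S = C * R.rho P₀ * Cᵀ := tendsto_nhds_unique (hlim.comp hφ.tendsto_atTop) h3
  refine ⟨P₀, fun s => ?_, h5⟩
  have hPs : Tendsto (fun n => P (φ n) s) atTop (𝓝 (P₀ s)) :=
    ((continuous_apply s).tendsto _).comp hPlim
  have hT2' : T2Space (Mt (k s)) := inferInstanceAs (T2Space (Fin (k s) → Fin (k s) → ℝ))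
  have hdet : (P₀ s).det = 1 := by
    have h6 : Continuous fun A : Mt (k s) => A.det := continuous_id.matrix_det
    have h7 : Tendsto (fun n => (P (φ n) s).det) atTop (𝓝 (P₀ s).det) :=
      (h6.tendsto _).comp hPs
    have h8 : ∀ n, (P (φ n) s).det = 1 := fun n => (hP (φ n) s).2
    simp only [h8] at h7
    exact (tendsto_nhds_unique h7 tendsto_const_nhds)
  refine ⟨?_, hdet⟩
  have hsym : (P₀ s)ᵀ = P₀ s := by
    have h6 : Continuous fun A : Mt (k s) => Aᵀ := continuous_id.matrix_transpose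
    have h7 : Tendsto (fun n => (P (φ n) s)ᵀ) atTop (𝓝 (P₀ s)ᵀ) := (h6.tendsto _).comp hPs
    have h8 : ∀ n, (P (φ n) s)ᵀ = P (φ n) s := fun n => symd (hP (φ n) s).1
    simp only [h8] at h7
    exact (tendsto_nhds_unique h7 hPs)
  have hpsd : (P₀ s).PosSemidef := by
    refine PosSemidef.of_dotProduct_mulVec_nonneg ?_ fun v => ?_
    · rw [IsHermitian, conjTranspose_eq_transpose_of_trivial, hsym]
    · rw [star_trivial]
      have h7 : Tendsto (fun n => v ⬝ᵥ P (φ n) s *ᵥ v) atTop (𝓝 (v ⬝ᵥ P₀ s *ᵥ v)) :=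
        ((cont_quad v).tendsto _).comp hPs
      refine ge_of_tendsto' h7 fun n => ?_
      have := (hP (φ n) s).1.posSemidef.dotProduct_mulVec_nonneg v
      rwa [star_trivial] at this
  exact hpsd.posDef_iff_det_ne_zero.2 (by rw [hdet]; exact one_ne_zero)

include hC hF in
lemma XX_tg (hF0 : F ≠ 0) : TotallyGeodesic (R.XX C) where
  nonempty := ⟨_, 1, pos_one, rfl⟩
  posDef := fun _ hS => XX_pos hC hS
  closed := fun _ hS _ => XX_closed hC hF hF0 hS
  reflection := by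
    rintro _ ⟨P, hP, rfl⟩ _ ⟨Q, hQ, rfl⟩
    exact ⟨_, hP.refl hQ, XX_refl hC hP Q⟩
  midpoint := by
    rintro _ ⟨P, hP, rfl⟩ _ ⟨Q, hQ, rfl⟩
    obtain ⟨G, hG, hGQ⟩ := hP.mid hQ
    refine ⟨_, ⟨G, hG, rfl⟩, ?_⟩
    rw [XX_refl hC hP G, hGQ]

include hF in
lemma XX_stable {a : Fin m → ℝ} (ha : eval (Cᵀ *ᵥ a) F ≠ 0) : IsStable (R.XX C) a := by
  intro K
  obtain ⟨c, hc⟩ := R.proper hF ha K
  have hcomp := isCompact_box (k := k) c
  have c1 : Continuous fun P : Mats k => C * R.rho P * Cᵀ :=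
    (continuous_const.matrix_mul R.cont).matrix_mul continuous_const
  have c2 : Continuous fun P : Mats k => (C⁻¹)ᵀ * R.rho (fun s => (P s).adjugate) * C⁻¹ := by
    refine (continuous_const.matrix_mul (R.cont.comp ?_)).matrix_mul continuous_const
    exact continuous_pi fun s => (continuous_apply s).matrix_adjugate
  have b1 : ∀ i j, ∃ b : ℝ, ∀ P ∈ {P : Mats k | ∀ s i j, |P s i j| ≤ c},
      |(C * R.rho P * Cᵀ) i j| ≤ b := by
    intro i j
    obtain ⟨b, hb⟩ := hcomp.exists_bound_of_continuousOn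
      (f := fun P : Mats k => (C * R.rho P * Cᵀ) i j) (c1.matrix_elem i j).continuousOn
    exact ⟨b, fun P hP => hb P hP⟩
  have b2 : ∀ i j, ∃ b : ℝ, ∀ P ∈ {P : Mats k | ∀ s i j, |P s i j| ≤ c},
      |((C⁻¹)ᵀ * R.rho (fun s => (P s).adjugate) * C⁻¹) i j| ≤ b := by
    intro i j
    obtain ⟨b, hb⟩ := hcomp.exists_bound_of_continuousOn
      (f := fun P : Mats k => ((C⁻¹)ᵀ * R.rho (fun s => (P s).adjugate) * C⁻¹) i j)
      (c2.matrix_elem i j).continuousOn
    exact ⟨b, fun P hP => hb P hP⟩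
  choose B1 hB1 using b1
  choose B2 hB2 using b2
  refine ⟨∑ i, ∑ j, (|B1 i j| + |B2 i j|), ?_⟩
  rintro _ ⟨P, hP, rfl⟩ hq i j
  have hPb : P ∈ {P : Mats k | ∀ s i j, |P s i j| ≤ c} := by
    refine hc P hP ?_
    rw [← quad_C, quad_eq]
    exact hq
  have hle : |B1 i j| + |B2 i j| ≤ ∑ i, ∑ j, (|B1 i j| + |B2 i j|) := by
    refine le_trans ?_ (Finset.single_le_sum (f := fun i => ∑ j, (|B1 i j| + |B2 i j|))
      (fun i _ => Finset.sum_nonneg fun j _ => by positivity) (Finset.mem_univ i))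
    exact Finset.single_le_sum (f := fun j => (|B1 i j| + |B2 i j|))
      (fun j _ => by positivity) (Finset.mem_univ j)
  constructor
  · refine (hB1 i j P hPb).trans ((le_abs_self _).trans (le_trans ?_ hle))
    linarith [abs_nonneg (B2 i j)]
  · have e : W.inv P = fun s => (P s).adjugate := by
      funext s
      show (P s)⁻¹ = _
      rw [Matrix.inv_def, (hP s).2, Ring.inverse_one, one_smul]
    rw [XX_inv hP, e]
    refine (hB2 i j P hPb).trans ((le_abs_self _).trans (le_trans ?_ hle))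
    linarith [abs_nonneg (B1 i j)]

end

end Pool.Agent.Q193.W
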