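import Mathlib

/-! Polynomial representations of products of matrix groups, and their stable vectors. -/

set_option autoImplicit false

namespace Pool.Agent.Q193.W

open Matrix MvPolynomial Filter Topology

section defs

variable {r : ℕ}

/-- Families of square matrices of sizes `k s`. -/
abbrev Mats (k : Fin r → ℕ) : Type := ∀ s : Fin r, Matrix (Fin (k s)) (Fin (k s)) ℝ

/-- Families of vectors of sizes `k s`. -/
abbrev Vecs (k : Fin r → ℕ) : Type := ∀ s : Fin r, Fin (k s) → ℝ

/-- The places of the entries. -/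
abbrev Ix (k : Fin r → ℕ) : Type := Σ s : Fin r, Fin (k s) × Fin (k s)

variable {k : Fin r → ℕ}

/-- The entries of a family of matrices. -/
def ofM (g : Mats k) : Ix k → ℝ := fun x => g x.1 x.2.1 x.2.2

/-- The family of matrices with given entries. -/
def toM (x : Ix k → ℝ) : Mats k := fun s => Matrix.of fun i j => x ⟨s, i, j⟩

/-- Families of diagonal matrices. -/
def dg (d : Vecs k) : Mats k := fun s => diagonal (d s)

/-- The transposed matrices. -/
def tr (g : Mats k) : Mats k := fun s => (g s)ᵀ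

/-- A polynomial representation of `∏ GL_{k s}(ℝ)` on `ℝ^m` in a basis of weight vectors in which
transposed matrices act by transposed matrices. -/
structure Rep (k : Fin r → ℕ) (m : ℕ) where
  rho : Mats k →* Matrix (Fin m) (Fin m) ℝ
  wt : Fin m → ∀ s, Fin (k s) → ℕ
  poly : ∀ a b, ∃ p : MvPolynomial (Ix k) ℝ, ∀ g : Mats k, rho g a b = eval (ofM g) p
  transp : ∀ g : Mats k, rho (tr g) = (rho g)ᵀ
  diag : ∀ d : Vecs k, rho (dg d) = diagonal fun a => ∏ s, ∏ i, d s i ^ wt a s i

/-- the value of the weight `a` -/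
def Rep.pw {m : ℕ} (R : Rep k m) (a : Fin m) (h : Vecs k) : ℝ := ∑ s, ∑ i, (R.wt a s i : ℝ) * h s i

/-- the positive weights -/
noncomputable def Rep.posW {m : ℕ} (R : Rep k m) (h : Vecs k) : Finset (Fin m) :=
  Finset.univ.filter fun a => 0 < R.pw a h

/-- the positive roots -/
noncomputable def posR (h : Vecs k) : Finset (Ix k) :=
  Finset.univ.filter fun x => h x.1 x.2.2 < h x.1 x.2.1

/-- The dimension criterion: for every nonzero traceless `h` there is a nonzero traceless `h'` whose
positive weights are among those of `h` and which has more positive weights than positive roots. -/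
def Rep.Many {m : ℕ} (R : Rep k m) : Prop :=
  ∀ h : Vecs k, (∀ s, ∑ i, h s i = 0) → h ≠ 0 → ∃ h' : Vecs k, (∀ s, ∑ i, h' s i = 0) ∧ h' ≠ 0 ∧
    R.posW h' ⊆ R.posW h ∧ (posR h').card < (R.posW h').card

end defs

variable {r : ℕ} {k : Fin r → ℕ} {m : ℕ} (R : Rep k m)

lemma toM_ofM (g : Mats k) : toM (ofM g) = g := rfl

lemma ofM_toM (x : Ix k → ℝ) : ofM (toM x) = x := rfl

lemma Rep.mem_posW {h : Vecs k} {a : Fin m} : a ∈ R.posW h ↔ 0 < R.pw a h := by
  simp [Rep.posW]

lemma mem_posR {h : Vecs k} {x : Ix k} : x ∈ posR h ↔ h x.1 x.2.2 < h x.1 x.2.1 := by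
  simp [posR]

lemma cont_ofM : Continuous (ofM : Mats k → Ix k → ℝ) := by
  unfold ofM
  refine continuous_pi fun x => ?_
  exact ((continuous_apply x.1).matrix_elem _ _)

lemma cont_tr : Continuous (tr : Mats k → Mats k) := by
  unfold tr
  refine continuous_pi fun s => ?_
  exact (continuous_apply s).matrix_transpose

lemma Rep.cont : Continuous fun g : Mats k => R.rho g := by
  refine continuous_matrix fun a b => ?_
  obtain ⟨p, hp⟩ := R.poly a b
  simp only [hp]
  exact p.continuous_eval.comp cont_ofM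

lemma Rep.rho_exp (h : Vecs k) : R.rho (dg fun s i => Real.exp (h s i)) =
    diagonal fun a => Real.exp (R.pw a h) := by
  rw [R.diag]
  congr 1
  funext a
  unfold Rep.pw
  rw [Real.exp_sum]
  refine Finset.prod_congr rfl fun s _ => ?_
  rw [Real.exp_sum]
  refine Finset.prod_congr rfl fun i _ => ?_
  rw [Real.exp_nat_mul]

lemma Rep.pw_smul (t : ℝ) (h : Vecs k) (a : Fin m) : R.pw a (t • h) = t * R.pw a h := by
  unfold Rep.pw
  rw [Finset.mul_sum]
  refine Finset.sum_congr rfl fun s _ => ?_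
  rw [Finset.mul_sum]
  refine Finset.sum_congr rfl fun i _ => ?_
  simp only [Pi.smul_apply, smul_eq_mul]
  ring

lemma Rep.cont_pw (a : Fin m) : Continuous (R.pw a) := by
  unfold Rep.pw
  fun_prop

lemma tendsto_exp_mul {c : ℝ} (hc : c < 0) :
    Tendsto (fun t : ℝ => Real.exp (t * c)) atTop (𝓝 0) := by
  refine Real.tendsto_exp_atBot.comp ?_
  exact tendsto_id.atTop_mul_const_of_neg hc

/-- the parabolic subgroup preserves the sum of the nonpositive weight spaces -/
lemma Rep.parab (h : Vecs k) (Q : Mats k) (hQ : ∀ s i j, h s j < h s i → Q s i j = 0)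
    (v : Fin m → ℝ) (hv : ∀ a, 0 < R.pw a h → v a = 0) (a : Fin m) (ha : 0 < R.pw a h) :
    (R.rho Q *ᵥ v) a = 0 := by
  -- the conjugated matrices
  set D : ℝ → Mats k := fun t => dg fun s i => Real.exp ((t • h) s i) with hD
  set Qt : ℝ → Mats k := fun t => toM fun x => Real.exp (t * (h x.1 x.2.1 - h x.1 x.2.2)) *
    Q x.1 x.2.1 x.2.2 with hQt
  have h1 : ∀ t, D t * Q = Qt t * D t := by
    intro t
    funext s
    ext i j
    simp only [hD, hQt, dg, toM, Pi.mul_apply, diagonal_mul, mul_diagonal, of_apply, Pi.smul_apply,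
      smul_eq_mul]
    rw [mul_sub, Real.exp_sub]
    field_simp
  have h2 : ∀ t : ℝ, Real.exp (t * R.pw a h) * (R.rho Q *ᵥ v) a =
      ∑ b, R.rho (Qt t) a b * (Real.exp (t * R.pw b h) * v b) := by
    intro t
    have h3 : R.rho (D t) * R.rho Q = R.rho (Qt t) * R.rho (D t) := by
      rw [← map_mul, ← map_mul, h1]
    have h4 : R.rho (D t) = diagonal fun a => Real.exp (t * R.pw a h) := by
      rw [hD]
      simp only
      rw [R.rho_exp (t • h)]
      simp only [R.pw_smul]
    rw [h4] at h3
    have h5 : ((diagonal (fun a => Real.exp (t * R.pw a h)) * R.rho Q) *ᵥ v) a =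
        ((R.rho (Qt t) * diagonal (fun a => Real.exp (t * R.pw a h))) *ᵥ v) a := by rw [h3]
    rw [← mulVec_mulVec, ← mulVec_mulVec, mulVec_diagonal] at h5
    rw [h5]
    show ∑ b, R.rho (Qt t) a b * ((diagonal fun a => Real.exp (t * R.pw a h)) *ᵥ v) b = _
    refine Finset.sum_congr rfl fun b _ => ?_
    rw [mulVec_diagonal]
  -- the limit of the right side
  set Q₀ : Mats k := toM fun x => if h x.1 x.2.1 = h x.1 x.2.2 then Q x.1 x.2.1 x.2.2 else 0
    with hQ₀
  have h6 : Tendsto Qt atTop (𝓝 Q₀) := by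
    refine tendsto_pi_nhds.2 fun s => ?_
    refine tendsto_pi_nhds.2 fun i => ?_
    refine tendsto_pi_nhds.2 fun j => ?_
    simp only [hQt, hQ₀, toM, of_apply]
    rcases lt_trichotomy (h s i) (h s j) with h7 | h7 | h7
    · rw [if_neg h7.ne]
      have := (tendsto_exp_mul (sub_neg.2 h7)).mul_const (Q s i j)
      simpa using this
    · rw [if_pos h7, h7]
      simp
    · rw [if_neg h7.ne', hQ s i j h7]
      simp
  have h8 : Tendsto (fun t : ℝ => ∑ b, R.rho (Qt t) a b * (Real.exp (t * R.pw b h) * v b)) atTop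
      (𝓝 (∑ b, R.rho Q₀ a b * (if R.pw b h = 0 then v b else 0))) := by
    refine tendsto_finsetSum _ fun b _ => ?_
    refine Tendsto.mul ?_ ?_
    · have h9 : Continuous fun g : Mats k => R.rho g a b := R.cont.matrix_elem a b
      exact (h9.tendsto Q₀).comp h6
    · rcases lt_trichotomy (R.pw b h) 0 with h7 | h7 | h7
      · rw [if_neg h7.ne]
        have := (tendsto_exp_mul h7).mul_const (v b)
        simpa using this
      · rw [if_pos h7, h7]
        simp
      · rw [if_neg h7.ne', hv b h7]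
        simp
  by_contra hc
  have h9 : Tendsto (fun t : ℝ => Real.exp (t * R.pw a h)) atTop atTop :=
    Real.tendsto_exp_atTop.comp (tendsto_id.atTop_mul_const ha)
  have h10 : Tendsto (fun t : ℝ => Real.exp (t * R.pw a h) * |(R.rho Q *ᵥ v) a|) atTop atTop :=
    h9.atTop_mul_const (abs_pos.2 hc)
  have h11 := h8.abs
  refine not_tendsto_nhds_of_tendsto_atTop h10 _ (h11.congr fun t => ?_)
  rw [← h2, abs_mul, Real.abs_exp]

lemma eval_aeval' {σ τ : Type} (y : σ → ℝ) (ψ : τ → MvPolynomial σ ℝ) (p : MvPolynomial τ ℝ) :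
    eval y (aeval ψ p) = eval (fun i => eval y (ψ i)) p := by
  induction p using MvPolynomial.induction_on with
  | C a => simp
  | add p q hp hq => simp only [map_add, hp, hq]
  | mul_X p i hp => simp only [map_mul, hp, aeval_X, eval_X]

/-- too few variables: the image lies in a proper algebraic set -/
lemma Rep.dim (Δ : Finset (Ix k)) (A : Finset (Fin m)) (hc : Δ.card < A.card) :
    ∃ F : MvPolynomial (Fin m) ℝ, F ≠ 0 ∧ ∀ x : Ix k → ℝ, (∀ i ∉ Δ, x i = 0) →
      ∀ v : Fin m → ℝ, (∀ a ∈ A, v a = 0) → eval (R.rho (1 + toM x) *ᵥ v) F = 0 := by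
  classical
  choose p hp using R.poly
  let σ : Type := {i // i ∈ Δ} ⊕ {a // a ∉ A}
  let ψ : Ix k → MvPolynomial σ ℝ := fun i => (if i.2.1 = i.2.2 then 1 else 0) +
    (if hi : i ∈ Δ then X (Sum.inl ⟨i, hi⟩) else 0)
  let φ : Fin m → MvPolynomial σ ℝ := fun a => ∑ b, (aeval ψ (p a b)) *
    (if hb : b ∉ A then X (Sum.inr ⟨b, hb⟩) else 0)
  have h1 : ¬ AlgebraicIndependent ℝ φ := by
    intro h
    have h2 := h.lift_cardinalMk_le_trdeg
    rw [MvPolynomial.trdeg_of_isDomain] at h2
    simp only [Cardinal.lift_id, Cardinal.mk_fin] at h2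
    have h3 : Cardinal.mk σ = (Fintype.card σ : ℕ) := Cardinal.mk_fintype σ
    rw [h3] at h2
    have h4 : m ≤ Fintype.card σ := by exact_mod_cast h2
    have h5 : Fintype.card σ = Δ.card + (m - A.card) := by
      show Fintype.card ({i // i ∈ Δ} ⊕ {a // a ∉ A}) = _
      rw [Fintype.card_sum, Fintype.card_coe, Fintype.card_subtype_compl, Fintype.card_coe,
        Fintype.card_fin]
    have h6 : A.card ≤ m := by
      simpa using A.card_le_univ
    omega
  rw [algebraicIndependent_iff] at h1
  push Not at h1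
  obtain ⟨F, hF, hF0⟩ := h1
  refine ⟨F, hF0, fun x hx v hv => ?_⟩
  let y : σ → ℝ := Sum.elim (fun i => x i) (fun b => v b)
  have hψ : ∀ i, eval y (ψ i) = ofM (1 + toM x) i := by
    intro i
    have e1 : ofM (1 + toM x) i =
        (1 : Matrix (Fin (k i.1)) (Fin (k i.1)) ℝ) i.2.1 i.2.2 + x i := rfl
    rw [e1, Matrix.one_apply]
    simp only [ψ, map_add]
    congr 1
    · split_ifs <;> simp
    · split_ifs with hi
      · simp [y]
      · simp [hx i hi]
  have h2 : ∀ a, eval y (φ a) = (R.rho (1 + toM x) *ᵥ v) a := by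
    intro a
    have e2 : (R.rho (1 + toM x) *ᵥ v) a = ∑ b, R.rho (1 + toM x) a b * v b := rfl
    rw [e2]
    simp only [φ, map_sum, map_mul]
    refine Finset.sum_congr rfl fun b _ => ?_
    rw [eval_aeval', hp]
    congr 1
    · simp only [hψ]
    · by_cases hb : b ∈ A
      · rw [dif_neg (not_not.2 hb), hv b hb]
        simp
      · rw [dif_pos hb]
        simp [y]
  have h3 : eval y (aeval φ F) = 0 := by rw [hF]; simp
  rw [eval_aeval'] at h3
  rw [← h3]
  congr 1
  simp only [h2]

end Pool.Agent.Q193.W
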