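import Pool.Agent.Q193.W.Rep

/-! The polynomial which vanishes on all unstable vectors. -/

set_option autoImplicit false

namespace Pool.Agent.Q193.W

open Matrix MvPolynomial Filter Topology

variable {r : ℕ} {k : Fin r → ℕ} {m : ℕ} (R : Rep k m)

/-- the part supported in `Δ` -/
noncomputable def resl (Δ : Finset (Ix k)) (i : Ix k) : (Ix k → ℝ) →L[ℝ] ℝ := by
  classical
  exact if i ∈ Δ then ContinuousLinearMap.proj i else 0

lemma resl_apply (Δ : Finset (Ix k)) (i : Ix k) (x : Ix k → ℝ) :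
    resl Δ i x = open Classical in if i ∈ Δ then x i else 0 := by
  classical
  unfold resl
  split_ifs <;> simp

/-- the part supported outside `Δ` -/
noncomputable def resc (Δ : Finset (Ix k)) (i : Ix k) : (Ix k → ℝ) →L[ℝ] ℝ := by
  classical
  exact if i ∈ Δ then 0 else ContinuousLinearMap.proj i

lemma resc_apply (Δ : Finset (Ix k)) (i : Ix k) (x : Ix k → ℝ) :
    resc Δ i x = open Classical in if i ∈ Δ then 0 else x i := by
  classical
  unfold resc
  split_ifs <;> simp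

/-- the product map -/
noncomputable def prd (Δ : Finset (Ix k)) (x : Ix k → ℝ) : Ix k → ℝ :=
  ofM ((1 + toM fun i => resl Δ i x) * (1 + toM fun i => resc Δ i x))

lemma prd_apply (Δ : Finset (Ix k)) (x : Ix k → ℝ) (i : Ix k) : prd Δ x i =
    ofM (1 : Mats k) i + x i + ∑ l, resl Δ ⟨i.1, i.2.1, l⟩ x * resc Δ ⟨i.1, l, i.2.2⟩ x := by
  have e : prd Δ x i = (((1 : Matrix (Fin (k i.1)) (Fin (k i.1)) ℝ) +
      (toM fun i => resl Δ i x : Mats k) i.1) *
      ((1 : Matrix (Fin (k i.1)) (Fin (k i.1)) ℝ) +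
      (toM fun i => resc Δ i x : Mats k) i.1)) i.2.1 i.2.2 := rfl
  rw [e, mul_add, mul_one, add_mul, one_mul]
  simp only [Matrix.add_apply, Matrix.mul_apply]
  have e2 : (toM (fun i => resl Δ i x) : Mats k) i.1 i.2.1 i.2.2 +
      (toM (fun i => resc Δ i x) : Mats k) i.1 i.2.1 i.2.2 = x i := by
    show resl Δ i x + resc Δ i x = x i
    rw [resl_apply, resc_apply]
    split_ifs <;> simp
  have e3 : ofM (1 : Mats k) i = (1 : Matrix (Fin (k i.1)) (Fin (k i.1)) ℝ) i.2.1 i.2.2 := rfl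
  rw [e3, ← e2]
  have e4 : ∑ j, (toM (fun i => resl Δ i x) : Mats k) i.1 i.2.1 j *
      (toM (fun i => resc Δ i x) : Mats k) i.1 j i.2.2 =
      ∑ l, resl Δ ⟨i.1, i.2.1, l⟩ x * resc Δ ⟨i.1, l, i.2.2⟩ x := rfl
  rw [e4]
  ring

lemma prd_deriv (Δ : Finset (Ix k)) :
    HasStrictFDerivAt (prd Δ) ((ContinuousLinearEquiv.refl ℝ (Ix k → ℝ) :
      (Ix k → ℝ) ≃L[ℝ] (Ix k → ℝ)) : (Ix k → ℝ) →L[ℝ] (Ix k → ℝ)) 0 := by
  rw [hasStrictFDerivAt_pi']
  intro i
  have h1 : HasStrictFDerivAt (fun x : Ix k → ℝ => ofM (1 : Mats k) i + x i +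
      ∑ l, resl Δ ⟨i.1, i.2.1, l⟩ x * resc Δ ⟨i.1, l, i.2.2⟩ x)
      ((0 + ContinuousLinearMap.proj i) + ∑ l, (resl Δ ⟨i.1, i.2.1, l⟩ (0 : Ix k → ℝ) •
        resc Δ ⟨i.1, l, i.2.2⟩ + resc Δ ⟨i.1, l, i.2.2⟩ (0 : Ix k → ℝ) •
        resl Δ ⟨i.1, i.2.1, l⟩)) (0 : Ix k → ℝ) := by
    refine HasStrictFDerivAt.add (HasStrictFDerivAt.add (hasStrictFDerivAt_const _ _)
      (ContinuousLinearMap.hasStrictFDerivAt (𝕜 := ℝ)
        (ContinuousLinearMap.proj (R := ℝ) (φ := fun _ : Ix k => ℝ) i))) ?_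
    refine HasStrictFDerivAt.fun_sum fun l _ => ?_
    exact (resl Δ ⟨i.1, i.2.1, l⟩).hasStrictFDerivAt.mul
      (resc Δ ⟨i.1, l, i.2.2⟩).hasStrictFDerivAt
  have h2 : (fun x => prd Δ x i) = fun x : Ix k → ℝ => ofM (1 : Mats k) i + x i +
      ∑ l, resl Δ ⟨i.1, i.2.1, l⟩ x * resc Δ ⟨i.1, l, i.2.2⟩ x := by
    funext x
    exact prd_apply Δ x i
  rw [h2]
  refine h1.congr_fderiv ?_
  ext x
  simp

/-- spreading the vanishing over the whole group -/
lemma Rep.spread (h : Vecs k) (F : MvPolynomial (Fin m) ℝ)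
    (hF : ∀ x : Ix k → ℝ, (∀ i ∉ posR h, x i = 0) →
      ∀ v : Fin m → ℝ, (∀ a ∈ R.posW h, v a = 0) → eval (R.rho (1 + toM x) *ᵥ v) F = 0)
    (g : Mats k) (v : Fin m → ℝ) (hv : ∀ a ∈ R.posW h, v a = 0) :
    eval (R.rho g *ᵥ v) F = 0 := by
  choose p hp using R.poly
  set G : MvPolynomial (Ix k) ℝ := aeval (fun a => ∑ b, p a b * C (v b)) F with hG
  have h1 : ∀ x : Ix k → ℝ, eval x G = eval (R.rho (toM x) *ᵥ v) F := by
    intro x
    rw [hG, eval_aeval']
    have : (fun a => eval x (∑ b, p a b * C (v b))) = R.rho (toM x) *ᵥ v := by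
      funext a
      have e2 : (R.rho (toM x) *ᵥ v) a = ∑ b, R.rho (toM x) a b * v b := rfl
      rw [e2, map_sum]
      refine Finset.sum_congr rfl fun b _ => ?_
      rw [map_mul, eval_C, hp, ofM_toM]
    rw [this]
  have h2 : ∀ x : Ix k → ℝ, eval (prd (posR h) x) G = 0 := by
    intro x
    rw [h1]
    have e : toM (prd (posR h) x) = (1 + toM fun i => resl (posR h) i x) *
        (1 + toM fun i => resc (posR h) i x) := rfl
    rw [e, map_mul, ← mulVec_mulVec]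
    refine hF _ ?_ _ ?_
    · intro i hi
      rw [resl_apply, if_neg hi]
    · intro a ha
      refine R.parab h _ ?_ v (fun b hb => hv b (R.mem_posW.2 hb)) a (R.mem_posW.1 ha)
      intro s i j hij
      have e5 : (1 + toM (fun i => resc (posR h) i x) : Mats k) s i j =
          (1 : Matrix (Fin (k s)) (Fin (k s)) ℝ) i j + resc (posR h) ⟨s, i, j⟩ x := rfl
      have hne : i ≠ j := by
        rintro rfl
        exact lt_irrefl _ hij
      have hm : (⟨s, i, j⟩ : Ix k) ∈ posR h := mem_posR.2 hij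
      rw [e5, Matrix.one_apply_ne hne, resc_apply, if_pos hm, add_zero]
  -- the identity theorem
  have h3 : Filter.map (prd (posR h)) (𝓝 0) = 𝓝 (prd (posR h) 0) :=
    (prd_deriv (posR h)).map_nhds_eq_of_equiv
  have h4 : ∀ᶠ y in 𝓝 (prd (posR h) 0), eval y G = 0 := by
    rw [← h3, Filter.eventually_map]
    exact Filter.Eventually.of_forall h2
  have h5 : (fun y : Ix k → ℝ => eval y G) = fun _ => 0 := by
    refine AnalyticOnNhd.eq_of_eventuallyEq (𝕜 := ℝ) (z₀ := prd (posR h) 0) ?_ ?_ h4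
    · have := AnalyticOnNhd.aeval_mvPolynomial (𝕜 := ℝ) (A := ℝ) (B := ℝ)
        (s := (Set.univ : Set (Ix k → ℝ))) (f := fun x : Ix k → ℝ => x) (fun i => ?_) G
      · simpa [MvPolynomial.aeval_eq_eval] using this
      · exact (ContinuousLinearMap.proj (R := ℝ) (φ := fun _ : Ix k => ℝ) i).analyticOnNhd _
    · exact analyticOnNhd_const
  have h6 := congrFun h5 (ofM g)
  have h7 : eval (ofM g) G = 0 := h6
  rw [h1, toM_ofM] at h7
  exact h7

/-- a polynomial which vanishes on all unstable vectors -/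
lemma Rep.exists_poly (hR : R.Many) : ∃ F : MvPolynomial (Fin m) ℝ, F ≠ 0 ∧
    ∀ h : Vecs k, (∀ s, ∑ i, h s i = 0) → h ≠ 0 → ∀ (g : Mats k) (v : Fin m → ℝ),
      (∀ a ∈ R.posW h, v a = 0) → eval (R.rho g *ᵥ v) F = 0 := by
  classical
  have key : ∀ τ : Finset (Ix k) × Finset (Fin m), ∃ F : MvPolynomial (Fin m) ℝ, F ≠ 0 ∧
      ∀ h : Vecs k, (posR h).card < (R.posW h).card → (posR h, R.posW h) = τ →
      ∀ (g : Mats k) (v : Fin m → ℝ),
        (∀ a ∈ R.posW h, v a = 0) → eval (R.rho g *ᵥ v) F = 0 := by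
    rintro ⟨Δ, A⟩
    by_cases hc : Δ.card < A.card
    · obtain ⟨F, hF0, hF⟩ := R.dim Δ A hc
      refine ⟨F, hF0, fun h _ hτ g v hv => ?_⟩
      simp only [Prod.mk.injEq] at hτ
      obtain ⟨rfl, rfl⟩ := hτ
      exact R.spread h F hF g v hv
    · refine ⟨1, one_ne_zero, fun h h1 hτ g v hv => ?_⟩
      simp only [Prod.mk.injEq] at hτ
      obtain ⟨rfl, rfl⟩ := hτ
      exact absurd h1 hc
  choose F hF0 hF using key
  refine ⟨∏ τ, F τ, Finset.prod_ne_zero_iff.2 fun τ _ => hF0 τ, fun h h1 h2 g v hv => ?_⟩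
  obtain ⟨h', -, -, h3, h4⟩ := hR h h1 h2
  rw [map_prod]
  exact Finset.prod_eq_zero (Finset.mem_univ (posR h', R.posW h'))
    (hF _ h' h4 rfl g v fun a ha => hv a (h3 ha))

end Pool.Agent.Q193.W
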