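import Pool.Agent.Q193.W.Spread
import Pool.Agent.Y520.Mat

/-! Properness of the quadratic forms `a ↦ ρ(P)(a, a)`. -/

set_option autoImplicit false

namespace Pool.Agent.Q193.W

open Matrix MvPolynomial Filter Topology

variable {r : ℕ} {k : Fin r → ℕ} {m : ℕ} (R : Rep k m)

/-- positive definite matrices of determinant one -/
def Pos (P : Mats k) : Prop := ∀ s, (P s).PosDef ∧ (P s).det = 1

/-- orthogonal matrices -/
def Orth (U : Mats k) : Prop := ∀ s, U s * (U s)ᵀ = 1 ∧ (U s)ᵀ * U s = 1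

lemma spec_one {n : ℕ} {A : Matrix (Fin n) (Fin n) ℝ} (hA : A.PosDef) (hd : A.det = 1) :
    ∃ (U : Matrix (Fin n) (Fin n) ℝ) (h : Fin n → ℝ), U * Uᵀ = 1 ∧ Uᵀ * U = 1 ∧
      A = U * diagonal (fun i => Real.exp (h i)) * Uᵀ ∧ ∑ i, h i = 0 := by
  have hH := hA.isHermitian
  set U : Matrix (Fin n) (Fin n) ℝ := (hH.eigenvectorUnitary : Matrix (Fin n) (Fin n) ℝ) with hU
  have hU1 : U * Uᵀ = 1 := by
    have := Unitary.mul_star_self_of_mem hH.eigenvectorUnitary.2
    rw [star_eq_conjTranspose, conjTranspose_eq_transpose_of_trivial] at this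
    exact this
  have hU2 : Uᵀ * U = 1 := by
    have := Unitary.star_mul_self_of_mem hH.eigenvectorUnitary.2
    rw [star_eq_conjTranspose, conjTranspose_eq_transpose_of_trivial] at this
    exact this
  have h1 : A = U * diagonal (fun i => hH.eigenvalues i) * Uᵀ := by
    have := hH.spectral_theorem
    rw [Unitary.conjStarAlgAut_apply, star_eq_conjTranspose,
      conjTranspose_eq_transpose_of_trivial] at this
    exact this
  have hpos : ∀ i, 0 < hH.eigenvalues i := fun i => hA.eigenvalues_pos i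
  refine ⟨U, fun i => Real.log (hH.eigenvalues i), hU1, hU2, ?_, ?_⟩
  · have e : (fun i => Real.exp (Real.log (hH.eigenvalues i))) = fun i => hH.eigenvalues i :=
      funext fun i => Real.exp_log (hpos i)
    show A = U * diagonal (fun i => Real.exp (Real.log (hH.eigenvalues i))) * Uᵀ
    rw [e]
    exact h1
  · rw [← Real.log_prod fun i _ => (hpos i).ne']
    have h2 := hH.det_eq_prod_eigenvalues
    rw [hd] at h2
    have h3 : ∏ i, hH.eigenvalues i = 1 := by
      simpa using h2.symm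
    rw [h3, Real.log_one]

lemma spec {P : Mats k} (hP : Pos P) : ∃ (U : Mats k) (h : Vecs k), Orth U ∧
    (∀ s, ∑ i, h s i = 0) ∧ P = U * dg (fun s i => Real.exp (h s i)) * tr U := by
  choose U h h1 h2 h3 h4 using fun s => spec_one (hP s).1 (hP s).2
  refine ⟨U, h, fun s => ⟨h1 s, h2 s⟩, h4, ?_⟩
  funext s
  exact h3 s

lemma Orth.mul_tr {U : Mats k} (h : Orth U) : U * tr U = 1 := funext fun s => (h s).1

lemma Orth.tr_mul {U : Mats k} (h : Orth U) : tr U * U = 1 := funext fun s => (h s).2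

lemma Orth.abs_le {U : Mats k} (h : Orth U) (s : Fin r) (i j : Fin (k s)) : |U s i j| ≤ 1 := by
  have h1 : ∑ l, U s i l * U s i l = 1 := by
    have := congrFun (congrFun (h s).1 i) i
    rw [Matrix.mul_apply, Matrix.one_apply_eq] at this
    exact this
  have h2 : U s i j * U s i j ≤ 1 := by
    rw [← h1]
    exact Finset.single_le_sum (f := fun l => U s i l * U s i l)
      (fun l _ => mul_self_nonneg _) (Finset.mem_univ j)
  rw [abs_le_one_iff_mul_self_le_one]
  exact h2

lemma isCompact_orth : IsCompact {U : Mats k | Orth U} := by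
  have h1 : IsCompact (Set.univ.pi fun s : Fin r => Set.univ.pi fun _ : Fin (k s) =>
      Set.univ.pi fun _ : Fin (k s) => Set.Icc (-1 : ℝ) 1) :=
    isCompact_univ_pi fun s => isCompact_univ_pi fun i => isCompact_univ_pi fun j =>
      isCompact_Icc
  refine h1.of_isClosed_subset ?_ ?_
  · have : {U : Mats k | Orth U} = ⋂ s, ({U : Mats k | U s * (U s)ᵀ = 1} ∩
        {U : Mats k | (U s)ᵀ * U s = 1}) := by
      ext U
      simp [Orth]
    rw [this]
    refine isClosed_iInter fun s => IsClosed.inter (isClosed_eq ?_ continuous_const)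
      (isClosed_eq ?_ continuous_const)
    · exact (continuous_apply s).matrix_mul (continuous_apply s).matrix_transpose
    · exact (continuous_apply s).matrix_transpose.matrix_mul (continuous_apply s)
  · intro U hU s _ i _ j _
    exact abs_le.1 (Orth.abs_le hU s i j)

/-- the entries of the matrix with given eigenvalues -/
lemma entry_le {U : Mats k} (hU : Orth U) (h : Vecs k) {M : ℝ} (hM : ∀ s i, h s i ≤ M)
    (s : Fin r) (i j : Fin (k s)) :
    |(U * dg (fun s i => Real.exp (h s i)) * tr U) s i j| ≤ k s * Real.exp M := by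
  have e : (U * dg (fun s i => Real.exp (h s i)) * tr U) s i j =
      ∑ l, U s i l * Real.exp (h s l) * U s j l := by
    show (U s * diagonal (fun i => Real.exp (h s i)) * (U s)ᵀ) i j = _
    rw [Matrix.mul_apply]
    refine Finset.sum_congr rfl fun l _ => ?_
    rw [mul_diagonal, transpose_apply]
  rw [e]
  refine (Finset.abs_sum_le_sum_abs _ _).trans ?_
  have : ∀ l ∈ (Finset.univ : Finset (Fin (k s))),
      |U s i l * Real.exp (h s l) * U s j l| ≤ Real.exp M := by
    intro l _
    rw [abs_mul, abs_mul, Real.abs_exp]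
    have h1 := hU.abs_le s i l
    have h2 := hU.abs_le s j l
    have h3 : Real.exp (h s l) ≤ Real.exp M := Real.exp_le_exp.2 (hM s l)
    have h4 := Real.exp_pos (h s l)
    calc |U s i l| * Real.exp (h s l) * |U s j l| ≤ 1 * Real.exp M * 1 := by
          gcongr
      _ = Real.exp M := by ring
  refine (Finset.sum_le_card_nsmul _ _ _ this).trans ?_
  simp

/-- the value of the quadratic form -/
lemma Rep.quad (a : Fin m → ℝ) (U : Mats k) (h : Vecs k) :
    a ⬝ᵥ R.rho (U * dg (fun s i => Real.exp (h s i)) * tr U) *ᵥ a =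
      ∑ b, Real.exp (R.pw b h) * ((R.rho (tr U) *ᵥ a) b) ^ 2 := by
  rw [map_mul, map_mul, R.rho_exp]
  have h1 : R.rho U = (R.rho (tr U))ᵀ := by
    rw [← R.transp]
    rfl
  rw [h1, ← mulVec_mulVec, ← mulVec_mulVec, mulVec_transpose, dotProduct_comm,
    ← dotProduct_mulVec]
  simp only [dotProduct, mulVec_diagonal]
  refine Finset.sum_congr rfl fun b _ => ?_
  ring

/-- **Stability.** -/
theorem Rep.proper {F : MvPolynomial (Fin m) ℝ}
    (hF : ∀ h : Vecs k, (∀ s, ∑ i, h s i = 0) → h ≠ 0 → ∀ (g : Mats k) (v : Fin m → ℝ),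
      (∀ a ∈ R.posW h, v a = 0) → eval (R.rho g *ᵥ v) F = 0)
    {a : Fin m → ℝ} (ha : eval a F ≠ 0) (K : ℝ) :
    ∃ c : ℝ, ∀ P : Mats k, Pos P → a ⬝ᵥ R.rho P *ᵥ a ≤ K → ∀ s i j, |P s i j| ≤ c := by
  by_contra hno
  push Not at hno
  choose P hP hK S I J hIJ using fun n : ℕ => hno n
  choose U h hU hs hPU using fun n : ℕ => spec (hP n)
  -- the norms of the exponents tend to infinity
  have hn : Tendsto (fun n => ‖h n‖) atTop atTop := by
    rw [tendsto_atTop]
    intro M
    obtain ⟨N, hN⟩ := exists_nat_gt ((∑ s, (k s : ℝ)) * Real.exp M)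
    filter_upwards [eventually_ge_atTop N] with n hn
    by_contra hlt
    push Not at hlt
    have h1 := hIJ n
    rw [hPU n] at h1
    have h2 := entry_le (hU n) (h n) (M := M) (fun s i => by
      calc h n s i ≤ |h n s i| := le_abs_self _
        _ = ‖h n s i‖ := (Real.norm_eq_abs _).symm
        _ ≤ ‖h n s‖ := norm_le_pi_norm _ i
        _ ≤ ‖h n‖ := norm_le_pi_norm _ s
        _ ≤ M := hlt.le) (S n) (I n) (J n)
    have h3 : (k (S n) : ℝ) ≤ ∑ s, (k s : ℝ) :=
      Finset.single_le_sum (f := fun s => (k s : ℝ)) (fun s _ => by positivity)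
        (Finset.mem_univ (S n))
    have h4 : (k (S n) : ℝ) * Real.exp M ≤ (∑ s, (k s : ℝ)) * Real.exp M := by
      gcongr
    have h5 : (N : ℝ) ≤ n := by exact_mod_cast hn
    linarith
  -- convergent subsequence
  have hcomp : IsCompact ({U : Mats k | Orth U} ×ˢ Metric.sphere (0 : Vecs k) 1) :=
    isCompact_orth.prod (isCompact_sphere 0 1)
  have hfc : FirstCountableTopology (Mats k) :=
    inferInstanceAs (FirstCountableTopology (∀ s, Fin (k s) → Fin (k s) → ℝ))
  have hn0 : ∀ᶠ n in atTop, (U n, ‖h n‖⁻¹ • h n) ∈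
      ({U : Mats k | Orth U} ×ˢ Metric.sphere (0 : Vecs k) 1) := by
    filter_upwards [hn.eventually_gt_atTop 0] with n hn
    refine ⟨hU n, ?_⟩
    rw [mem_sphere_zero_iff_norm, norm_smul, norm_inv, norm_norm, inv_mul_cancel₀ hn.ne']
  obtain ⟨⟨V, e⟩, ⟨hV, he⟩, φ, hφ, hlim⟩ := hcomp.tendsto_subseq' hn0.frequently
  have hlimU : Tendsto (fun n => U (φ n)) atTop (𝓝 V) :=
    (continuous_fst.tendsto _).comp hlim
  have hlime : Tendsto (fun n => ‖h (φ n)‖⁻¹ • h (φ n)) atTop (𝓝 e) :=
    (continuous_snd.tendsto _).comp hlim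
  have he0 : e ≠ 0 := by
    rintro rfl
    rw [mem_sphere_zero_iff_norm, norm_zero] at he
    exact zero_ne_one he
  have hes : ∀ s, ∑ i, e s i = 0 := by
    intro s
    have h1 : Tendsto (fun n => ∑ i, (‖h (φ n)‖⁻¹ • h (φ n)) s i) atTop (𝓝 (∑ i, e s i)) := by
      refine tendsto_finsetSum _ fun i _ => ?_
      exact ((continuous_apply i).tendsto _).comp (((continuous_apply s).tendsto _).comp hlime)
    have h2 : ∀ n, ∑ i, (‖h (φ n)‖⁻¹ • h (φ n)) s i = 0 := by
      intro n
      simp only [Pi.smul_apply, smul_eq_mul]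
      rw [← Finset.mul_sum, hs, mul_zero]
    simp only [h2] at h1
    exact (tendsto_nhds_unique h1 tendsto_const_nhds)
  set b : Fin m → ℝ := R.rho (tr V) *ᵥ a with hb
  have hbn : Tendsto (fun n => R.rho (tr (U (φ n))) *ᵥ a) atTop (𝓝 b) := by
    have h1 : Continuous fun W : Mats k => R.rho (tr W) *ᵥ a :=
      Continuous.matrix_mulVec (R.cont.comp cont_tr) continuous_const
    exact (h1.tendsto V).comp hlimU
  have hb0 : ∀ c ∈ R.posW e, b c = 0 := by
    intro c hc
    by_contra hbc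
    have h1 : Tendsto (fun n => ((R.rho (tr (U (φ n))) *ᵥ a) c) ^ 2) atTop (𝓝 (b c ^ 2)) :=
      (((continuous_apply c).tendsto _).comp hbn).pow 2
    have h2 : Tendsto (fun n => R.pw c (h (φ n))) atTop atTop := by
      have h3 : Tendsto (fun n => R.pw c (‖h (φ n)‖⁻¹ • h (φ n))) atTop (𝓝 (R.pw c e)) :=
        ((R.cont_pw c).tendsto _).comp hlime
      have h4 : Tendsto (fun n => ‖h (φ n)‖ * R.pw c (‖h (φ n)‖⁻¹ • h (φ n))) atTop atTop :=
        (hn.comp hφ.tendsto_atTop).atTop_mul_pos (R.mem_posW.1 hc) h3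
      refine h4.congr' ?_
      filter_upwards [(hn.comp hφ.tendsto_atTop).eventually_gt_atTop 0] with n hn
      have hn' : 0 < ‖h (φ n)‖ := hn
      rw [R.pw_smul, ← mul_assoc, mul_inv_cancel₀ hn'.ne', one_mul]
    have h5 : Tendsto (fun n => Real.exp (R.pw c (h (φ n))) *
        ((R.rho (tr (U (φ n))) *ᵥ a) c) ^ 2) atTop atTop :=
      (Real.tendsto_exp_atTop.comp h2).atTop_mul_pos (by positivity) h1
    obtain ⟨n, hn⟩ := (h5.eventually_gt_atTop K).exists
    have h6 := hK (φ n)
    rw [hPU (φ n), R.quad] at h6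
    have h7 : Real.exp (R.pw c (h (φ n))) * ((R.rho (tr (U (φ n))) *ᵥ a) c) ^ 2 ≤
        ∑ b, Real.exp (R.pw b (h (φ n))) * ((R.rho (tr (U (φ n))) *ᵥ a) b) ^ 2 :=
      Finset.single_le_sum (f := fun b => Real.exp (R.pw b (h (φ n))) *
        ((R.rho (tr (U (φ n))) *ᵥ a) b) ^ 2) (fun b _ => by positivity) (Finset.mem_univ c)
    linarith
  have h8 := hF e hes he0 V b hb0
  rw [hb, mulVec_mulVec, ← map_mul, Orth.mul_tr hV, map_one, one_mulVec] at h8
  exact ha h8

end Pool.Agent.Q193.W
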