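import Pool.Agent.Q193.W.Geo

/-! Closed Reeb orbits for contact forms with a local torus symmetry whose monodromy lies in a
representation of a product of special linear groups. -/

open scoped Topology ContDiff Manifold
open Set

set_option autoImplicit false

noncomputable section

namespace Pool.Agent.Q193.W

open Matrix MvPolynomial
open Pool.Agent.H826R2.WStmt Pool.Agent.Y520.SStmt

universe u

/-- The monodromy of the torus action lies virtually in the representation `ρ` of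
`∏ SL_{k s}^{±}(ℝ)`, in the coordinates given by `C`: for all `γ` of a subgroup of finite index of
`Γ` one has `γ (θ x) = (B θ) (γ x)` with an integer matrix `B = C ρ(g) C⁻¹`, where `g` is a family
of real matrices of determinant `1` or `-1`. -/
def MonodromyIn {P : Type*} (Γ : Type*) [Group Γ] [MulAction Γ P] {r m : ℕ} {k : Fin r → ℕ}
    (act : (Fin m → ℝ) → P → P) (ρ : Rep k m) (C : Matrix (Fin m) (Fin m) ℝ) : Prop :=
  ∃ Γ₀ : Subgroup Γ, Γ₀.FiniteIndex ∧ ∀ γ ∈ Γ₀, ∃ (B : Matrix (Fin m) (Fin m) ℤ) (g : Mats k),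
    (∀ (θ : Fin m → ℝ) (x : P), γ • act θ x = act (fun i => ∑ j, (B i j : ℝ) * θ j) (γ • x)) ∧
    (∀ s, |(g s).det| = 1) ∧ B.map (Int.cast : ℤ → ℝ) * C = C * ρ.rho g

variable {E : Type u} [NormedAddCommGroup E] [NormedSpace ℝ E] [FiniteDimensional ℝ E]
  {M : Type*} [TopologicalSpace M] [ChartedSpace E M] [IsManifold 𝓘(ℝ, E) ∞ M]
  {P : Type*} [TopologicalSpace P] [ChartedSpace E P] [IsManifold 𝓘(ℝ, E) ∞ P]

theorem exists_periodic_rep [T2Space M] [CompactSpace M]
    (α : M → Cov E) (hα : IsContact α) (R : M → E) (hR : IsReeb α R)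
    [T2Space P] [SigmaCompactSpace P] [Nonempty P]
    {Γ : Type*} [Group Γ] [MulAction Γ P] (q : P → M) (hq : IsQuotientMap E q Γ)
    {m : ℕ} (hm : 0 < m) (A : TorusAction (pull (E := E) q α) m) (hA : Normalises Γ A.act)
    {r : ℕ} {k : Fin r → ℕ} (ρ : Rep k m) (hρ : ρ.Many)
    (C : Matrix (Fin m) (Fin m) ℝ) (hC : C.det ≠ 0) (hAC : MonodromyIn Γ A.act ρ C) :
    ∃ (c : ℝ → M) (T : ℝ), IsPeriodicOrbit R c T := by
  obtain ⟨F, hF0, hF⟩ := ρ.exists_poly hρ
  have hinv : MonodromyInvariant Γ A.act (ρ.XX C) := by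
    obtain ⟨Γ₀, hΓ₀, h⟩ := hAC
    refine ⟨Γ₀, hΓ₀, fun γ hγ => ?_⟩
    obtain ⟨B, g, h1, h2, h3⟩ := h γ hγ
    refine ⟨B, h1, ?_⟩
    rintro _ ⟨P, hP, rfl⟩
    refine ⟨g * P * tr g, conj_tr hP h2, ?_⟩
    rw [map_mul, map_mul, ρ.transp]
    calc B.map (Int.cast : ℤ → ℝ) * (C * ρ.rho P * Cᵀ) * (B.map (Int.cast : ℤ → ℝ))ᵀ =
        (B.map (Int.cast : ℤ → ℝ) * C) * ρ.rho P * (B.map (Int.cast : ℤ → ℝ) * C)ᵀ := by
          rw [transpose_mul]
          simp only [Matrix.mul_assoc]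
      _ = _ := by
          rw [h3, transpose_mul]
          simp only [Matrix.mul_assoc]
  set F' : MvPolynomial (Fin m) ℝ := aeval (fun i => ∑ j, MvPolynomial.C (C j i) * X j) F with hF'
  have he : ∀ a : Fin m → ℝ, eval a F' = eval (Cᵀ *ᵥ a) F := by
    intro a
    rw [hF', eval_aeval']
    congr 1
    congr 1
    funext i
    rw [map_sum]
    show _ = ∑ j, Cᵀ i j * a j
    refine Finset.sum_congr rfl fun j _ => ?_
    rw [map_mul, eval_C, eval_X, transpose_apply]
  have hF'0 : F' ≠ 0 := by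
    intro h0
    apply hF0
    refine MvPolynomial.funext fun x => ?_
    have h1 := he ((C⁻¹)ᵀ *ᵥ x)
    rw [h0, map_zero, mulVec_mulVec, ← transpose_mul, CC' hC, transpose_one, one_mulVec] at h1
    rw [← h1, map_zero]
  refine exists_periodic_generic α hα R hR q hq hm A hA (ρ.XX C) (XX_tg hC hF hF0) hinv F' hF'0 ?_
  intro a ha
  rw [he] at ha
  exact XX_stable hF ha

end Pool.Agent.Q193.W
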